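import Pool.Agent.Helper66.SB.GoalsB

/-!
# Project SB (MP_d3128a_ag), packet NSA: systems with `∑ a ≤ 3d`
-/

set_option autoImplicit false

open Module MvPolynomial

noncomputable section

namespace Pool.Agent.Helper14.SB

open Pool.Agent.Helper66.SB Helper18.Shgh

/-- there are `s` complex numbers which are linearly independent over `ℚ` -/
theorem exists_li (s : ℕ) : ∃ t : Fin s → ℂ, LinearIndependent ℚ t := by
  have h1 : (s : Cardinal) ≤ Module.rank ℚ ℂ := by
    have h2 : Module.rank ℚ ℂ = Cardinal.continuum := Complex.rank_rat_complex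
    rw [h2]
    exact (Cardinal.natCast_lt_aleph0.trans Cardinal.aleph0_lt_continuum).le
  obtain ⟨S, hS, hli⟩ := le_rank_iff_exists_linearIndependent_finset.mp h1
  exact ⟨fun i => ((S.equivFinOfCardEq hS).symm i : ℂ),
    hli.comp _ (S.equivFinOfCardEq hS).symm.injective⟩

/-- **NSA** from `G_LG`, `G_PZ` -/
theorem gNSA (hLG : G_LG) (hPZ : G_PZ) : G_NSA := by
  intro s d a htri hsum
  obtain ⟨t, ht⟩ := exists_li s
  have h1 : ∀ i, a i ≤ d := fun i => by
    have := htri {i} (by simp)
    simpa using this
  have h2 : ∀ i j, i ≠ j → a i + a j ≤ d := fun i j hij => by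
    have := htri {i, j} (Finset.card_le_two.trans (by norm_num))
    rwa [Finset.sum_pair hij] at this
  have h3 : ∀ i j l, i ≠ j → j ≠ l → i ≠ l → a i + a j + a l ≤ d := fun i j l hij hjl hil => by
    have h := htri {i, j, l} Finset.card_le_three
    rw [Finset.sum_insert (by simp [hij, hil]), Finset.sum_pair hjl] at h
    omega
  have hadm : Adm s (d : ℤ) a :=
    { ge := by omega
      one := fun i _ => by have := h1 i; omega
      two := fun i j hij _ _ => by have := h2 i j hij; omega
      three := fun i j l hij hjl hil _ _ _ => by have := h3 i j l hij hjl hil; omega }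
  have hs : ∑ i, (a i : ℤ) ≤ 3 * (d : ℤ) := by exact_mod_cast hsum
  have h := hLG s t ht (d : ℤ) a hadm (Or.inl hs)
  have h0 : 0 ≤ ch2 (d : ℤ) Finset.univ a := by
    rw [← h]
    positivity
  exact ⟨h0, hPZ s d a (fun i => ga (t i)) (h.le.trans (le_max_left _ _))⟩

end Pool.Agent.Helper14.SB
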